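import Mathlib
import Pool.Agent.X10.AI.Gen6

set_option autoImplicit false

/-!
# MP_de9007_nt: prime values of `⌊β a ^ n - b ^ n / (a - b)⌋` over all exponents `n`

For integers `a ≥ 2`, `-a < b < a` and real `β > 0` let
`X a b β n = ⌊β a ^ n - b ^ n / (a - b)⌋`.  For `β = 1 / (a - b)` this is
`M_n (a, b) = (a ^ n - b ^ n) / (a - b)`.  We count the `n` for which `X a b β n` itself is prime, over
all exponents `n`, for almost every `β` and all pairs `(a, b)` at once, and bound the coincidences of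
prime values for different exponents or different `b`.
-/

namespace Pool.Agent.Results.MP_de9007_nt.AllExponentsLaw

open Filter Topology MeasureTheory Asymptotics

/-- the integer part of `β a ^ n - b ^ n / (a - b)` -/
noncomputable def X (a : ℕ) (b : ℤ) (β : ℝ) (n : ℕ) : ℕ :=
  ⌊β * (a : ℝ) ^ n - (b : ℝ) ^ n / ((a : ℝ) - b)⌋₊

open Classical in
/-- the number of exponents `m` in `S` with `2 ≤ m ≤ n` for which `s m` is prime -/
noncomputable def M (s : ℕ → ℕ) (S : Set ℕ) (n : ℕ) : ℕ :=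
  ((Finset.Icc 2 n).filter (fun m => m ∈ S ∧ (s m).Prime)).card

open Classical in
/-- the sum of `1 / m` over the `m` in `S` with `2 ≤ m ≤ n` -/
noncomputable def V (S : Set ℕ) (n : ℕ) : ℝ :=
  ∑ m ∈ (Finset.Icc 2 n).filter (fun m => m ∈ S), 1 / (m : ℝ)

/-- The law with constant `κ` for the prime values of the sequence `s` of integers. -/
structure Law (s : ℕ → ℕ) (κ : ℝ) (S : Set ℕ) : Prop where
  /-- the number of all `m ≤ n` with `s m` prime -/
  all : (fun n : ℕ => (M s Set.univ n : ℝ) - κ * Real.log n) =O[atTop]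
    (fun n : ℕ => Real.sqrt (Real.log n) * (Real.log (Real.log n)) ^ ((5 : ℝ) / 2))
  /-- the number of `m ≤ n` in `S` with `s m` prime -/
  sets : Tendsto (V S) atTop atTop → (fun n : ℕ => (M s S n : ℝ) - κ * V S n) =O[atTop]
    (fun n : ℕ => Real.sqrt (V S n * Real.log (Real.log n)) *
      (Real.log (V S n * Real.log (Real.log n))) ^ 2)
  /-- there are infinitely many in `S` if and only if the sum of the reciprocals is infinite -/
  dichotomy : {m : ℕ | m ∈ S ∧ (s m).Prime}.Infinite ↔ Tendsto (V S) atTop atTop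

lemma V_eq (S : Set ℕ) : V S = Pool.Agent.X10.AI.VS S := by
  funext n
  unfold V Pool.Agent.X10.AI.VS Pool.Agent.X10.AI.wt
  rw [← Finset.sum_filter]
  refine Finset.sum_congr ?_ fun _ _ => rfl
  ext q
  simp only [Finset.mem_filter, Finset.mem_Icc, Finset.mem_range]
  constructor
  · rintro ⟨⟨h1, h2⟩, h3⟩
    exact ⟨by omega, h3, h1⟩
  · rintro ⟨h1, h2, h3⟩
    exact ⟨⟨h3, by omega⟩, h2⟩

lemma M_eq (s : ℕ → ℕ) (S : Set ℕ) (n : ℕ) : M s S n = Pool.Agent.X10.AI.cS S s n := by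
  unfold M Pool.Agent.X10.AI.cS
  congr 1
  ext q
  simp only [Finset.mem_filter, Finset.mem_Icc, Finset.mem_range]
  constructor
  · rintro ⟨⟨h1, h2⟩, h3, h4⟩
    exact ⟨by omega, h1, h3, h4⟩
  · rintro ⟨h1, h2, h3, h4⟩
    exact ⟨⟨h2, by omega⟩, h3, h4⟩

lemma law_of {s : ℕ → ℕ} {κ : ℝ} {S : Set ℕ}
    (h1 : Pool.Agent.X10.AI.Pt s κ Set.univ) (h2 : Pool.Agent.X10.AI.Pt s κ S) : Law s κ S := by
  refine ⟨?_, fun hS => ?_, ?_⟩
  · obtain ⟨B, hB, h⟩ := h1.law Pool.Agent.X10.AI.VS_univ_tendsto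
    simp only [M_eq]
    exact Pool.Agent.X10.AI.bigO_all hB h
  · rw [V_eq] at hS ⊢
    obtain ⟨B, hB, h⟩ := h2.law hS
    simp only [M_eq]
    exact Pool.Agent.TH888.R.bigO_set hB hS h
  · rw [V_eq]
    constructor
    · intro hi
      by_contra hn
      refine hi (((h2.fin hn).union (Set.finite_lt_nat 2)).subset fun m hm => ?_)
      by_cases h : 2 ≤ m
      · exact Or.inl ⟨h, hm⟩
      · exact Or.inr (by show m < 2; omega)
    · intro hS
      exact (h2.inf hS).mono fun m hm => hm.2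

/-- the second term -/
noncomputable def gg (a : ℕ) (b : ℤ) (n : ℕ) : ℝ := -((b : ℝ) ^ n / ((a : ℝ) - b))

lemma X_eq (a : ℕ) (b : ℤ) (β : ℝ) (n : ℕ) : X a b β n = ⌊β * (a : ℝ) ^ n + gg a b n⌋₊ := by
  unfold X gg
  rw [← sub_eq_add_neg]

lemma abs_lt_of {a : ℕ} {b : ℤ} (h1 : -(a : ℤ) < b) (h2 : b < a) : |(b : ℝ)| < a := by
  rw [abs_lt]
  constructor
  · exact_mod_cast h1
  · exact_mod_cast h2

lemma gg_bound {a : ℕ} {b : ℤ} (h2 : b < a) (n : ℕ) :
    |gg a b n| ≤ (1 / ((a : ℝ) - b)) * |(b : ℝ)| ^ n := by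
  have h3 : (b : ℝ) < a := by exact_mod_cast h2
  have h4 : 0 < (a : ℝ) - b := by linarith
  unfold gg
  rw [abs_neg, abs_div, abs_pow, abs_of_pos h4]
  exact le_of_eq (by ring)

lemma special {a : ℕ} {b : ℤ} (h1 : -(a : ℤ) < b) (h2 : b < a) (n : ℕ) :
    ((a : ℤ) - b) * (X a b (1 / ((a : ℝ) - b)) n : ℤ) = (a : ℤ) ^ n - b ^ n := by
  have h3 : (b : ℝ) < a := by exact_mod_cast h2
  have h4 : 0 < (a : ℝ) - b := by linarith
  obtain ⟨m, hm⟩ : (a : ℤ) - b ∣ (a : ℤ) ^ n - b ^ n := sub_dvd_pow_sub_pow _ _ n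
  have hmr : (a : ℝ) ^ n - (b : ℝ) ^ n = ((a : ℝ) - b) * m := by exact_mod_cast hm
  have hpos : 0 ≤ (a : ℝ) ^ n - (b : ℝ) ^ n := by
    have h5 : (b : ℝ) ^ n ≤ |(b : ℝ)| ^ n := by
      rw [← abs_pow]
      exact le_abs_self _
    have h6 : |(b : ℝ)| ^ n ≤ (a : ℝ) ^ n :=
      pow_le_pow_left₀ (abs_nonneg _) (abs_lt_of h1 h2).le n
    linarith
  have hm0 : 0 ≤ (m : ℝ) := by
    rw [hmr] at hpos
    exact nonneg_of_mul_nonneg_right hpos h4
  have hm0' : 0 ≤ m := by exact_mod_cast hm0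
  obtain ⟨k, hk⟩ : ∃ k : ℕ, m = k := ⟨m.toNat, (Int.toNat_of_nonneg hm0').symm⟩
  have hX : X a b (1 / ((a : ℝ) - b)) n = k := by
    unfold X
    have e : 1 / ((a : ℝ) - b) * (a : ℝ) ^ n - (b : ℝ) ^ n / ((a : ℝ) - b) = (k : ℝ) := by
      have e1 : 1 / ((a : ℝ) - b) * (a : ℝ) ^ n - (b : ℝ) ^ n / ((a : ℝ) - b) =
          ((a : ℝ) ^ n - (b : ℝ) ^ n) / ((a : ℝ) - b) := by ring
      rw [e1, hmr, hk, mul_div_cancel_left₀ _ h4.ne']
      push_cast
      rfl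
    rw [e, Nat.floor_natCast]
  rw [hX, hm, hk]

/-- (1) `X a b (1 / (a - b)) n` is `M_n (a, b) = (a ^ n - b ^ n) / (a - b)`.  (2) For every set `S` of
exponents and almost every `β > 0`, for all integers `a ≥ 2` and `b ≠ 0` with `-a < b < a` the law
holds for `X a b β` with constant `1 / log a`.  (3) For every `W : ℕ → ℕ` with `∑ W m / m ^ 2 < ∞` and
almost every `β > 0`, for all integers `a ≥ 2` and `b, b'` between `-a` and `a`: for all large `m`
there is no `n` with `m ≤ n ≤ m + W m` and `X a b β m`, `X a b' β n` both prime, except for `n = m` if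
these two numbers are equal. -/
theorem result :
    (∀ (a : ℕ) (b : ℤ) (n : ℕ), -(a : ℤ) < b → b < a →
      ((a : ℤ) - b) * (X a b (1 / ((a : ℝ) - b)) n : ℤ) = (a : ℤ) ^ n - b ^ n) ∧
    (∀ S : Set ℕ, ∀ᵐ β : ℝ, 0 < β → ∀ (a : ℕ) (b : ℤ), 2 ≤ a → -(a : ℤ) < b → b < a → b ≠ 0 →
      Law (X a b β) (1 / Real.log a) S) ∧
    ∀ W : ℕ → ℕ, Summable (fun m : ℕ => (W m : ℝ) / (m : ℝ) ^ 2) →
      ∀ᵐ β : ℝ, 0 < β → ∀ (a : ℕ) (b b' : ℤ), 2 ≤ a → -(a : ℤ) < b → b < a → -(a : ℤ) < b' →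
        b' < a → ∀ᶠ m : ℕ in atTop, ∀ n : ℕ, m ≤ n → n ≤ m + W m →
          (m = n → X a b β m ≠ X a b' β n) → ¬ ((X a b β m).Prime ∧ (X a b' β n).Prime) := by
  refine ⟨fun a b n h1 h2 => special h1 h2 n, fun S => ?_, fun W hW => ?_⟩
  · have h : ∀ᵐ β : ℝ, ∀ (a : ℕ) (b : ℤ), 2 ≤ a → -(a : ℤ) < b → b < a → 0 < β →
        Law (X a b β) (1 / Real.log a) S := by
      rw [ae_all_iff]
      intro a
      rw [ae_all_iff]
      intro b
      by_cases hc : 2 ≤ a ∧ -(a : ℤ) < b ∧ b < a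
      · obtain ⟨ha, h1, h2⟩ := hc
        filter_upwards [Pool.Agent.X10.AI.law_gen ha (abs_nonneg (b : ℝ)) (abs_lt_of h1 h2)
            (gg_bound h2) Set.univ,
          Pool.Agent.X10.AI.law_gen ha (abs_nonneg (b : ℝ)) (abs_lt_of h1 h2)
            (gg_bound h2) S] with β h3 h4 _ _ _ h0
        have e : X a b β = fun p => ⌊β * (a : ℝ) ^ p + gg a b p⌋₊ := funext fun n => X_eq a b β n
        rw [e]
        exact law_of (h3 h0) (h4 h0)
      · exact Eventually.of_forall fun β h1 h2 h3 => absurd ⟨h1, h2, h3⟩ hc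
    filter_upwards [h] with β hβ h0 a b h1 h2 h3 _
    exact hβ a b h1 h2 h3 h0
  · have h : ∀ᵐ β : ℝ, ∀ (a : ℕ) (b b' : ℤ), 2 ≤ a → -(a : ℤ) < b → b < a → -(a : ℤ) < b' →
        b' < a → 0 < β → ∀ᶠ m : ℕ in atTop, ∀ n : ℕ, m ≤ n → n ≤ m + W m →
          (m = n → X a b β m ≠ X a b' β n) → ¬ ((X a b β m).Prime ∧ (X a b' β n).Prime) := by
      rw [ae_all_iff]
      intro a
      rw [ae_all_iff]
      intro b
      rw [ae_all_iff]
      intro b'
      by_cases hc : 2 ≤ a ∧ -(a : ℤ) < b ∧ b < a ∧ -(a : ℤ) < b' ∧ b' < a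
      · obtain ⟨ha, h1, h2, h3, h4⟩ := hc
        filter_upwards [Pool.Agent.X10.AI.spacing_gen ha (abs_nonneg (b : ℝ)) (abs_lt_of h1 h2)
          (gg_bound h2) (abs_nonneg (b' : ℝ)) (abs_lt_of h3 h4) (gg_bound h4) W hW] with β h5 _ _ _ _ _ h0
        simp only [X_eq]
        exact h5 h0
      · exact Eventually.of_forall fun β h1 h2 h3 h4 h5 => absurd ⟨h1, h2, h3, h4, h5⟩ hc
    filter_upwards [h] with β hβ h0 a b b' h1 h2 h3 h4 h5
    exact hβ a b b' h1 h2 h3 h4 h5 h0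

end Pool.Agent.Results.MP_de9007_nt.AllExponentsLaw
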