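import Mathlib
import Pool.Agent.X191.CP.Shift
import Pool.Agent.H447R2.ML.Spec

set_option autoImplicit false

/-!
# Close pairs of exponents for the numbers `(a ^ p - b ^ p) / (a - b)`

For integers `a > 1`, `-a < b < a` a real `β > 0` and a prime `p` let `W a b β p` be the `p`-rough
part (the product, with multiplicity, of the prime factors larger than `p`) of
`⌊β a ^ p - b ^ p / (a - b)⌋`; for coprime `a`, `b` and `β = 1 / (a - b)` it is
`(a ^ p - b ^ p) / (a - b)` for all primes `p` not dividing `a - b`.  Similarly for real `x > 1` and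
`|c| < x` let `R x c p` be the `p`-rough part of `⌊(x ^ p - c ^ p) / (x - c)⌋`.

We prove: for almost every `β > 0`, simultaneously for all pairs `(a, b)` and all `ε > 0`, all but
finitely many pairs of primes `p < q ≤ p + p / (log p) ^ (1 + ε)` with `W a b β p`, `W a b β q` prime
have `q ≤ p + (1 + ε) log log p / log 2`; and for every real `c` and almost every real
`x > max 1 |c|` there are for every `ε > 0` only finitely many pairs of primes
`p < q ≤ p + p / (log p) ^ (1 + ε)` with `R x c p`, `R x c q` prime.  Both are cases of convergence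
criteria for sets of pairs.

The bounds for the measure of the event that `p` and `q` are exponents are in the starting library
(`Pool.Agent.W66X.near_shift`, `Pool.Agent.W66C.near_c`, `Pool.Agent.H447R2.ML.pair_bound`).
-/

namespace Pool.Agent.Results.MP_de9007_nt.ClosePairs

open Filter Topology MeasureTheory

/-- The product, with multiplicity, of the prime factors of `m` that are larger than `p`. -/
def roughPart (p m : ℕ) : ℕ := (m.primeFactorsList.filter (fun r => p < r)).prod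

/-- The `p`-rough part of `⌊β a ^ p - b ^ p / (a - b)⌋`. -/
noncomputable def W (a b : ℤ) (β : ℝ) (p : ℕ) : ℕ :=
  roughPart p ⌊β * (a : ℝ) ^ p - (b : ℝ) ^ p / ((a : ℝ) - b)⌋₊

/-- The `p`-rough part of `⌊(x ^ p - c ^ p) / (x - c)⌋`. -/
noncomputable def R (x c : ℝ) (p : ℕ) : ℕ := roughPart p ⌊(x ^ p - c ^ p) / (x - c)⌋₊

/-- `p < q` are primes and `s p`, `s q` are prime. -/
def IsPair (s : ℕ → ℕ) (p q : ℕ) : Prop := p.Prime ∧ q.Prime ∧ p < q ∧ (s p).Prime ∧ (s q).Prime

open Pool.Agent.X191.CP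
open Pool.Agent.W66C (Cur yy yy1 yy2 fam_cur measurable_yy)
open Pool.Agent.W66X (ae_of_exp')

/-- The special amplitude. -/
lemma special {a b : ℤ} (hab : IsCoprime a b) (h1 : -a < b) (h2 : b < a) {p : ℕ} (hp : p.Prime)
    (hpd : ¬ (p : ℤ) ∣ a - b) : (W a b (1 / ((a : ℝ) - b)) p : ℤ) * (a - b) = a ^ p - b ^ p := by
  have h := Pool.Agent.H447R2.ML.rough_quot hab h1 h2 hp hpd rfl
  have hgeom : (∑ i ∈ Finset.range p, a ^ i * b ^ (p - 1 - i)) * (a - b) = a ^ p - b ^ p :=
    (Commute.all a b).geom_sum₂_mul p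
  rw [← h] at hgeom
  exact hgeom

/-- fixed pair, sets of pairs of exponents -/
lemma fixed_set (a b : ℤ) (ha : 1 < a) (h1 : -a < b) (h2 : b < a) (S : Set (ℕ × ℕ))
    (hS : Summable (fun x : ℕ × ℕ => {x | x ∈ S ∧ x.1.Prime ∧ x.2.Prime ∧ x.1 < x.2}.indicator
      (fun x : ℕ × ℕ => Real.log x.1 / x.1 * (Real.log x.2 / x.2) +
        ((2 : ℝ) ^ (x.2 - x.1))⁻¹ * (Real.log x.1 / x.1)) x)) :
    ∀ᵐ β : ℝ, 0 < β → ∀ᶠ p : ℕ in atTop, ∀ q : ℕ, (p, q) ∈ S → ¬ IsPair (W a b β) p q := by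
  obtain ⟨A, hA⟩ := Int.eq_ofNat_of_zero_le (show 0 ≤ a by omega)
  have hA2 : 2 ≤ A := by omega
  have hbr : |(b : ℝ)| < (A : ℝ) := by
    have h3 : |b| < a := abs_lt.2 ⟨h1, h2⟩
    rw [hA] at h3
    exact_mod_cast h3
  have hab : (0 : ℝ) < (A : ℝ) - b := by
    have := le_abs_self (b : ℝ)
    linarith
  have key := pairs_floor hA2 (κ := |(b : ℝ)|) (C := 1 / ((A : ℝ) - b))
    (g := fun p => -((b : ℝ) ^ p / ((A : ℝ) - b))) (abs_nonneg _) hbr (by
      intro p
      rw [abs_neg, abs_div, abs_pow, abs_of_pos hab]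
      exact le_of_eq (by ring))
    (S := {x | x ∈ S ∧ x.1.Prime ∧ x.2.Prime ∧ x.1 < x.2})
    (fun x hx => ⟨hx.2.1.two_le, hx.2.2.2⟩) hS
  have e : (a : ℝ) = (A : ℝ) := by rw [hA]; simp
  filter_upwards [key] with β h hβ
  filter_upwards [h hβ] with p hp q hpq hpair
  obtain ⟨g1, g2, g3, g4, g5⟩ := hpair
  unfold W at g4 g5
  rw [e, sub_eq_add_neg] at g4 g5
  exact hp q ⟨hpq, g1, g2, g3⟩ g4 g5

/-- fixed pair, close exponents -/
lemma fixed_close (a b : ℤ) (ha : 1 < a) (h1 : -a < b) (h2 : b < a) {ε : ℝ} (hε : 0 < ε) :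
    ∀ᵐ β : ℝ, 0 < β → ∀ᶠ p : ℕ in atTop, ∀ q : ℕ, IsPair (W a b β) p q →
      (q : ℝ) ≤ p + p / Real.log p ^ (1 + ε) →
        (q : ℝ) ≤ p + (1 + ε) * Real.log (Real.log p) / Real.log 2 := by
  set S' : Set (ℕ × ℕ) := {x | (x.2 : ℝ) ≤ x.1 + wid ε x.1 ∧
    (x.1 : ℝ) + (1 + ε) * Real.log (Real.log x.1) / Real.log (2 : ℕ) < x.2} with hS'
  have h := fixed_set a b ha h1 h2 S' (by
    have hz := zero_sum (b := 2) le_rfl hε
    simp only [Nat.cast_ofNat] at hz
    refine Summable.of_nonneg_of_le (fun x => ?_) (fun x => ?_) ((pair_sum hε).add hz)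
    · refine Set.indicator_nonneg (fun x _ => ?_) x
      exact add_nonneg (mul_nonneg (w_nonneg _) (w_nonneg _)) (mul_nonneg (by positivity) (w_nonneg _))
    · classical
      rw [Set.indicator_apply]
      by_cases hx : x ∈ {x : ℕ × ℕ | x ∈ S' ∧ x.1.Prime ∧ x.2.Prime ∧ x.1 < x.2}
      · rw [if_pos hx]
        obtain ⟨⟨g1, g2⟩, g3, g4, g5⟩ := hx
        simp only [Nat.cast_ofNat] at g2
        rw [if_pos ⟨g3, g4, g5, g1⟩, if_pos ⟨g3, g5, g1, g2⟩]
        rfl
      · rw [if_neg hx]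
        refine add_nonneg ?_ ?_
        · split_ifs
          · exact mul_nonneg (w_nonneg _) (w_nonneg _)
          · exact le_rfl
        · split_ifs
          · exact mul_nonneg (by positivity) (w_nonneg _)
          · exact le_rfl)
  filter_upwards [h] with β h hβ
  filter_upwards [h hβ] with p hp q hpair hle
  by_contra hgt
  refine hp q ⟨hle, ?_⟩ hpair
  simp only [Nat.cast_ofNat]
  exact not_le.1 hgt

/-- real base, sets of pairs of exponents -/
lemma real_set (c : ℝ) (S : Set (ℕ × ℕ))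
    (hS : Summable (fun x : ℕ × ℕ => {x | x ∈ S ∧ x.1.Prime ∧ x.2.Prime ∧ x.1 < x.2}.indicator
      (fun x : ℕ × ℕ => Real.log x.1 / x.1 * (Real.log x.2 / x.2)) x)) :
    ∀ᵐ x : ℝ, max 1 |c| < x → ∀ᶠ p : ℕ in atTop, ∀ q : ℕ, (p, q) ∈ S → ¬ IsPair (R x c) p q := by
  set c0 := Real.log (max 1 |c|) with hc0d
  have hmax : (1 : ℝ) ≤ max 1 |c| := le_max_left _ _
  have hmax0 : (0 : ℝ) < max 1 |c| := by linarith
  have hc0 : 0 ≤ c0 := Real.log_nonneg hmax
  set s : ℝ := -(SignType.sign c : ℝ) with hs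
  have hs1 : |s| ≤ 1 := by
    rw [hs, abs_neg]
    rcases lt_trichotomy c 0 with h | h | h
    · rw [sign_neg h]; simp
    · rw [h]; simp
    · rw [sign_pos h]; simp
  have hmc : Real.log |c| ≤ 1 * c0 := by
    rw [one_mul, hc0d]
    rcases (abs_nonneg c).eq_or_lt with h | h
    · rw [← h, Real.log_zero]
      exact Real.log_nonneg (le_max_left _ _)
    · exact Real.log_le_log h (le_max_right _ _)
  have hexp : ∀ t, c0 < t → max 1 |c| < Real.exp t := fun t ht => (Real.log_lt_iff_lt_exp hmax0).1 ht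
  have hpos : ∀ t, c0 < t → 0 < Real.exp t - c := fun t ht => by
    have h1 := hexp t ht
    have h2 := le_max_right 1 |c|
    have h3 := le_abs_self c
    linarith
  have hfam := fam_cur (m1 := 1) (m0 := Real.log |c|) (s := s) (c0 := c0) one_pos hs1 hmc
    (H := fun t => -Real.log (Real.exp t - c))
    (H' := fun t => -(Real.exp t / (Real.exp t - c)))
    (H'' := fun t => -((Real.exp t * (Real.exp t - c) - Real.exp t * Real.exp t) /
      (Real.exp t - c) ^ 2))
    (fun t ht => ((((Real.hasDerivAt_exp t).sub_const c).log (hpos t ht).ne')).neg)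
    (fun t ht => ((Real.hasDerivAt_exp t).div ((Real.hasDerivAt_exp t).sub_const c)
      (hpos t ht).ne').neg)
    (by
      refine ContinuousOn.neg (ContinuousOn.div (by fun_prop) (by fun_prop) fun t ht => ?_)
      exact pow_ne_zero 2 (hpos t ht).ne')
  have hval : ∀ t, c0 < t → ∀ᶠ p : ℕ in atTop, p.Prime →
      0 < ((Real.exp t) ^ p - c ^ p) / (Real.exp t - c) ∧
      Real.log (((Real.exp t) ^ p - c ^ p) / (Real.exp t - c)) =
        yy 1 (Real.log |c|) s (fun t => -Real.log (Real.exp t - c)) p t := by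
    intro t ht
    filter_upwards [eventually_ge_atTop 3] with p hp hpp
    have hodd : Odd p := hpp.odd_of_ne_two (by omega)
    have h1 := hexp t ht
    have h2 : |c| < Real.exp t := (le_max_right _ _).trans_lt h1
    have h3 : |c ^ p| < (Real.exp t) ^ p := by
      rw [abs_pow]
      exact pow_lt_pow_left₀ h2 (abs_nonneg _) (by omega)
    have h4 : 0 < (Real.exp t) ^ p - c ^ p := by
      have := le_abs_self (c ^ p)
      linarith
    have hE : 0 < Real.exp t ^ p := by positivity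
    refine ⟨div_pos h4 (hpos t ht), ?_⟩
    rw [Real.log_div h4.ne' (hpos t ht).ne']
    have e1 : s * Real.exp (-(p * (1 * t - Real.log |c|))) = -(c ^ p / (Real.exp t) ^ p) := by
      rcases (abs_nonneg c).eq_or_lt with h | h
      · have hc : c = 0 := abs_eq_zero.1 h.symm
        have hp0 : p ≠ 0 := by omega
        rw [hs, hc]
        simp [hp0]
      · have e2 : Real.exp (-(p * (1 * t - Real.log |c|))) = |c| ^ p / (Real.exp t) ^ p := by
          have e3 : -((p : ℝ) * (1 * t - Real.log |c|)) = (p : ℝ) * Real.log |c| - p * t := by ring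
          rw [e3, Real.exp_sub, Real.exp_nat_mul, Real.exp_nat_mul, Real.exp_log h]
        rw [e2]
        have e4 : s * |c| ^ p = -c ^ p := by
          rw [hs]
          rcases lt_or_gt_of_ne (abs_pos.1 h) with h5 | h5
          · rw [sign_neg h5, abs_of_neg h5, hodd.neg_pow]
            simp
          · rw [sign_pos h5, abs_of_pos h5]
            simp
        rw [← mul_div_assoc, e4, neg_div]
    have e5 : (Real.exp t) ^ p - c ^ p = (Real.exp t) ^ p * (1 + -(c ^ p / (Real.exp t) ^ p)) := by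
      field_simp
      ring
    have h6 : 0 < 1 + -(c ^ p / (Real.exp t) ^ p) := by
      have : c ^ p / (Real.exp t) ^ p < 1 := by
        rw [div_lt_one hE]
        linarith
      linarith
    unfold yy
    rw [e1, e5, Real.log_mul hE.ne' h6.ne', ← Real.exp_nat_mul, Real.log_exp]
    ring
  set S' : Set (ℕ × ℕ) := {x | x ∈ S ∧ x.1.Prime ∧ x.2.Prime ∧ x.1 < x.2} with hS'
  have hmain := pairs_val hc0 (fun p => measurable_yy 1 (Real.log |c|) s (by fun_prop) p)
    (fun p => measurable_yy 1 (Real.log |c|) s (by fun_prop) p) hfam hfam (S := S')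
    (fun x hx => ⟨hx.2.1, hx.2.2.1, hx.2.2.2.le⟩)
    (by
      intro a0 a1 ha0 ha
      refine ⟨1 / 2, by norm_num, by norm_num, ?_⟩
      obtain ⟨D, hD, hev⟩ := hfam a0 a1 ha0 ha
      obtain ⟨P, hP⟩ := eventually_atTop.1 hev
      filter_upwards [eventually_ge_atTop P] with p hp q hpq t ht
      obtain ⟨_, _, _, hlt⟩ := hpq
      simp only at hlt
      have g1 := abs_le.1 ((hP p hp).slope t ht)
      have g2 := abs_le.1 ((hP q (by omega)).slope t ht)
      have g5 : (p : ℝ) + 1 ≤ q := by exact_mod_cast hlt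
      linarith [g1.1, g1.2, g2.1, g2.2])
    hS
    (val := fun p t => ((Real.exp t) ^ p - c ^ p) / (Real.exp t - c))
    (val2 := fun p t => ((Real.exp t) ^ p - c ^ p) / (Real.exp t - c)) hval hval
  have hfin := ae_of_exp' (P := fun x : ℝ => max 1 |c| < x →
    ∀ᶠ p : ℕ in atTop, ∀ q : ℕ, (p, q) ∈ S → ¬ IsPair (R x c) p q) (by
    filter_upwards [hmain] with t ht hx
    have h1 : c0 < t := by
      rw [hc0d, Real.log_lt_iff_lt_exp hmax0]
      exact hx
    filter_upwards [ht h1] with p hp q hpq hpair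
    obtain ⟨g1, g2, g3, g4, g5⟩ := hpair
    exact hp q ⟨hpq, g1, g2, g3⟩ g4 g5)
  filter_upwards [hfin] with x hx h1
  exact hx (by linarith) h1

lemma real_close (c : ℝ) {ε : ℝ} (hε : 0 < ε) :
    ∀ᵐ x : ℝ, max 1 |c| < x → ∀ᶠ p : ℕ in atTop, ∀ q : ℕ,
      (q : ℝ) ≤ p + p / Real.log p ^ (1 + ε) → ¬ IsPair (R x c) p q :=
  real_set c {x | (x.2 : ℝ) ≤ x.1 + wid ε x.1} (by
    refine (pair_sum hε).congr fun x => ?_
    classical
    rw [Set.indicator_apply]
    refine if_congr ?_ rfl rfl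
    simp only [Set.mem_ofPred_eq]
    tauto)

lemma wid_anti {ε δ : ℝ} (h : δ ≤ ε) {p : ℕ} (hp : 1 ≤ Real.log p) :
    (p : ℝ) / Real.log p ^ (1 + ε) ≤ p / Real.log p ^ (1 + δ) := by
  refine div_le_div_of_nonneg_left (Nat.cast_nonneg _) (Real.rpow_pos_of_pos (by linarith) _) ?_
  exact Real.rpow_le_rpow_of_exponent_le hp (by linarith)

theorem result :
    -- the numbers `(a ^ p - b ^ p) / (a - b)` are the values at `β = 1 / (a - b)`
    (∀ a b : ℤ, IsCoprime a b → -a < b → b < a → ∀ p : ℕ, p.Prime → ¬ (p : ℤ) ∣ a - b →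
      (W a b (1 / ((a : ℝ) - b)) p : ℤ) * (a - b) = a ^ p - b ^ p) ∧
    -- close exponents of a fixed pair, almost every amplitude
    (∀ᵐ β : ℝ, 0 < β → ∀ a b : ℤ, 1 < a → -a < b → b < a → ∀ ε : ℝ, 0 < ε →
      ∀ᶠ p : ℕ in atTop, ∀ q : ℕ, IsPair (W a b β) p q → (q : ℝ) ≤ p + p / Real.log p ^ (1 + ε) →
        (q : ℝ) ≤ p + (1 + ε) * Real.log (Real.log p) / Real.log 2) ∧
    -- the criterion for sets of pairs
    (∀ S : Set (ℕ × ℕ),
      Summable (fun x : ℕ × ℕ => {x | x ∈ S ∧ x.1.Prime ∧ x.2.Prime ∧ x.1 < x.2}.indicator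
        (fun x : ℕ × ℕ => Real.log x.1 / x.1 * (Real.log x.2 / x.2) +
          ((2 : ℝ) ^ (x.2 - x.1))⁻¹ * (Real.log x.1 / x.1)) x) →
      ∀ᵐ β : ℝ, 0 < β → ∀ a b : ℤ, 1 < a → -a < b → b < a →
        ∀ᶠ p : ℕ in atTop, ∀ q : ℕ, (p, q) ∈ S → ¬ IsPair (W a b β) p q) ∧
    -- close exponents, almost every real base
    (∀ c : ℝ, ∀ᵐ x : ℝ, max 1 |c| < x → ∀ ε : ℝ, 0 < ε → ∀ᶠ p : ℕ in atTop, ∀ q : ℕ,
      (q : ℝ) ≤ p + p / Real.log p ^ (1 + ε) → ¬ IsPair (R x c) p q) ∧
    -- the criterion for sets of pairs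
    (∀ c : ℝ, ∀ S : Set (ℕ × ℕ),
      Summable (fun x : ℕ × ℕ => {x | x ∈ S ∧ x.1.Prime ∧ x.2.Prime ∧ x.1 < x.2}.indicator
        (fun x : ℕ × ℕ => Real.log x.1 / x.1 * (Real.log x.2 / x.2)) x) →
      ∀ᵐ x : ℝ, max 1 |c| < x → ∀ᶠ p : ℕ in atTop, ∀ q : ℕ, (p, q) ∈ S → ¬ IsPair (R x c) p q) := by
  have hlog : Tendsto (fun p : ℕ => Real.log (p : ℝ)) atTop atTop :=
    Real.tendsto_log_atTop.comp tendsto_natCast_atTop_atTop
  refine ⟨fun a b hab h1 h2 p hp hpd => special hab h1 h2 hp hpd, ?_, fun S hS => ?_, fun c => ?_,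
    fun c S hS => real_set c S hS⟩
  · have h : ∀ a b : ℤ, ∀ n : ℕ, ∀ᵐ β : ℝ, 1 < a → -a < b → b < a → 0 < β →
        ∀ᶠ p : ℕ in atTop, ∀ q : ℕ, IsPair (W a b β) p q →
          (q : ℝ) ≤ p + p / Real.log p ^ (1 + 1 / ((n : ℝ) + 1)) →
          (q : ℝ) ≤ p + (1 + 1 / ((n : ℝ) + 1)) * Real.log (Real.log p) / Real.log 2 := by
      intro a b n
      by_cases hc : 1 < a ∧ -a < b ∧ b < a
      · filter_upwards [fixed_close a b hc.1 hc.2.1 hc.2.2
          (show (0 : ℝ) < 1 / ((n : ℝ) + 1) by positivity)] with β hβ _ _ _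
        exact hβ
      · exact Eventually.of_forall fun β h1 h2 h3 => absurd ⟨h1, h2, h3⟩ hc
    filter_upwards [ae_all_iff.2 fun a => ae_all_iff.2 fun b => ae_all_iff.2 (h a b)]
      with β hβ h0 a b ha h1 h2 ε hε
    obtain ⟨n, hn⟩ := exists_nat_one_div_lt hε
    filter_upwards [hβ a b n ha h1 h2 h0, hlog.eventually_ge_atTop 1] with p hp hl q hpair hle
    have g2 := hp q hpair (hle.trans (by linarith [wid_anti hn.le hl]))
    refine g2.trans ?_
    have hlb : 0 < Real.log 2 := Real.log_pos (by norm_num)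
    have hll : 0 ≤ Real.log (Real.log p) := Real.log_nonneg hl
    have : (1 + 1 / ((n : ℝ) + 1)) * Real.log (Real.log p) / Real.log 2 ≤
        (1 + ε) * Real.log (Real.log p) / Real.log 2 := by gcongr
    linarith
  · have h : ∀ a b : ℤ, ∀ᵐ β : ℝ, 1 < a → -a < b → b < a → 0 < β →
        ∀ᶠ p : ℕ in atTop, ∀ q : ℕ, (p, q) ∈ S → ¬ IsPair (W a b β) p q := by
      intro a b
      by_cases hc : 1 < a ∧ -a < b ∧ b < a
      · filter_upwards [fixed_set a b hc.1 hc.2.1 hc.2.2 S hS] with β hβ _ _ _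
        exact hβ
      · exact Eventually.of_forall fun β h1 h2 h3 => absurd ⟨h1, h2, h3⟩ hc
    filter_upwards [ae_all_iff.2 fun a => ae_all_iff.2 (h a)] with β hβ h0 a b ha h1 h2
    exact hβ a b ha h1 h2 h0
  · have h := ae_all_iff.2 fun n : ℕ => real_close c (show (0 : ℝ) < 1 / ((n : ℝ) + 1) by positivity)
    filter_upwards [h] with x h hx ε hε
    obtain ⟨n, hn⟩ := exists_nat_one_div_lt hε
    filter_upwards [h n hx, hlog.eventually_ge_atTop 1] with p hp hl q hle
    exact hp q (hle.trans (by linarith [wid_anti hn.le hl]))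

end Pool.Agent.Results.MP_de9007_nt.ClosePairs
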