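import Pool.Agent.X163.RF.C2

set_option autoImplicit false

/-!
# Numbers `M_p(a, b)` all of whose prime factors are beyond the record size

Let `M_n(a, b) = (a ^ n - b ^ n) / (a - b)`. The prime factors of `M_p(a, b)`, `p` an odd prime, `a`, `b` coprime, `p ∤ a - b`,
are of the form `2 k p + 1`. For at least `X ^ (9 / 10)` primes `p` in `(X, 3 X]` (in any class modulo a squarefree number)
they all have `k > c f(p)`, for all such pairs `a`, `b` at once, where `f(p) = log p (log₂ p)² log₄ p / (log₃ p)²` (iterated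
natural logarithms) is the size of the gaps between primes
produced by the starting library, and even `k > c f(p) log₂ p` if `k` is a prime.
The same primes `p` work for the primes `q ≠ p` which divide `M_{m p}(a, b)` but not `M_m(a, b)`, for all `m`.

Proof: the record covering sieve with a prime in the middle (starting library, `Pool.Agent.TH101.RG`, helper101) in the form of
`Pool.Agent.X34.M.twoSets` (helper34), and the order of `(a / b) ^ m` modulo the prime factors.
-/

namespace Pool.Agent.Results.MP_de9007_nt.RecordFactors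

/-- The record scale `f(x) = log x (log₂ x)² log₄ x / (log₃ x)²` (iterated natural logarithms). -/
noncomputable def f (x : ℝ) : ℝ :=
  Real.log x * (Real.log (Real.log x)) ^ 2 * Real.log (Real.log (Real.log (Real.log x))) /
    (Real.log (Real.log (Real.log x))) ^ 2

/-- `q = 2 k p + 1` with `k > c f(p)`, and `k > c f(p) log log p` in case `k` is a prime. -/
def Beyond (c : ℝ) (p q : ℕ) : Prop := ∃ k : ℕ, q = 2 * k * p + 1 ∧ c * f p < k ∧
  (k.Prime → c * (f p * Real.log (Real.log p)) < k)

/-- `M_n(a, b) = (a ^ n - b ^ n) / (a - b)` (an exact division for `a ≠ b`; `0` for `a = b`). -/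
def M (n : ℕ) (a b : ℤ) : ℤ := (a ^ n - b ^ n) / (a - b)

/-- For every squarefree `d` there is `c > 0` such that for all large `X` and all `h` prime to `d` at least
`X ^ (9 / 10)` primes `p` with `X < p ≤ 3 X`, `p ≡ h (mod d)` have the following properties.
(1) For all coprime integers `a`, `b` with `p ∤ a - b`, all prime factors `q` of `M_p(a, b)` are beyond the record size
(`Beyond c p q`).
(2) For all coprime integers `a`, `b` and all `m`, the same holds for all primes `q ≠ p` which divide `M_{m p}(a, b)` but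
not `M_m(a, b)`. -/
theorem result (d : ℕ) (hd : Squarefree d) : ∃ c : ℝ, 0 < c ∧ ∃ X₀ : ℝ, ∀ X : ℝ, X₀ ≤ X →
    ∀ h : ℕ, h.Coprime d →
    X ^ (9 / 10 : ℝ) ≤ ({p : ℕ | p.Prime ∧ X < p ∧ (p : ℝ) ≤ 3 * X ∧ p ≡ h [MOD d] ∧
      (∀ a b : ℤ, IsCoprime a b → ¬ (p : ℤ) ∣ a - b → ∀ q : ℕ, q.Prime → (q : ℤ) ∣ M p a b → Beyond c p q) ∧
      (∀ a b : ℤ, IsCoprime a b → ∀ m q : ℕ, q.Prime → q ≠ p → (q : ℤ) ∣ M (m * p) a b → ¬ (q : ℤ) ∣ M m a b →
        Beyond c p q)}.ncard : ℝ) := by
  obtain ⟨c, hc, hX⟩ := Pool.Agent.X163.RF.pairs d hd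
  obtain ⟨X₀, hX₀⟩ := Filter.eventually_atTop.1 hX
  exact ⟨c, hc, X₀, hX₀⟩

end Pool.Agent.Results.MP_de9007_nt.RecordFactors
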